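import Pool.Agent.Run7.h634.Mur.Line

/-!
# Murre's conjectures (A), (B), (C), (D) from one decomposition and two vanishing conditions
-/

set_option autoImplicit false

open CategoryTheory AlgebraicGeometry

universe u v w

namespace Pool.Agent.Results.MP_583472_ag.AllFourConjectures

open Pool.Agent.H914 Pool.Agent.H914.VarClass Pool.Agent.H914.VarClass.Obj Pool.Agent.W492.BB
  Pool.Agent.W550.Corr Pool.Agent.TH133 Pool.Agent.Run7.H634.Mur

variable {k : Type u} [Field k] {𝒱 : VarClass k} {C : TheoryData.{u, v, 0} 𝒱 ℚ}
  [hC : IsChowProj C] {K : Type w} [Field K]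
  {H : WeilTheoryData.{u, v, w} C K} [hH : IsWeilProj H]

/-- Let the class of varieties contain a projective line. Then all varieties satisfy the conjectures
(A), (B), (C) and (D) of Murre, in all codimensions and for all Chow-Kunneth decompositions, if and
only if each variety `X`, of dimension `d`, has one Chow-Kunneth decomposition `π` such that

* `F^1 CH^d(X × X)` is the group of homologically trivial cycles, for the decomposition
  `π^∨ × π` of `X × X`;
* `π (i-1)` acts as zero on `CH^i(X)` for `i ≤ d / 2`. -/
theorem result (P : 𝒱.Obj) (x : C.A P) (h : IsLine C P x) :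
    (∀ X : 𝒱.Obj, (∃ π, IsCK H X π) ∧ MurreB0 H X ∧ MurreB1 H X ∧ MurreC H X ∧ MurreD H X) ↔
      ∀ X : 𝒱.Obj, ∃ π, IsCK H X π ∧ MurreDFor H (squareCK π) X.dim ∧ NoJump π :=
  murre_all_iff h

end Pool.Agent.Results.MP_583472_ag.AllFourConjectures
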