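import Pool.Agent.Run7.h634.Mur.Dom2

/-!
# Murre's conjecture (D) and the other conjectures for dominated varieties
-/

set_option autoImplicit false

open CategoryTheory AlgebraicGeometry

universe u v w

namespace Pool.Agent.Results.MP_583472_ag.DominatedVarieties

open Pool.Agent.H914 Pool.Agent.H914.VarClass Pool.Agent.H914.VarClass.Obj Pool.Agent.W492.BB
  Pool.Agent.W550.Corr Pool.Agent.TH133 Pool.Agent.Run7.H634.Mur

variable {k : Type u} [Field k] {𝒱 : VarClass k} {C : TheoryData.{u, v, 0} 𝒱 ℚ}
  [hC : IsChowProj C] {K : Type w} [Field K]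
  {H : WeilTheoryData.{u, v, w} C K} [hH : IsWeilProj H]

/-- Let `Y` be a variety with one Chow-Kunneth decomposition `ρ` such that (D) holds for the one
group `CH^(dim Y)(Y × Y)` and the one decomposition `ρ^∨ × ρ`. Let the motive of `X` be a direct
summand of a Tate twist of the motive of `Y` (for instance, let `X` be dominated by `Y`).

Then `X` has a Chow-Kunneth decomposition, all its decompositions have the property required of `ρ`,
and for all of them and all codimensions (D), `F^0 CH^i(X) = CH^i(X)` and (C) hold; any two of them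
are conjugate by a unit which is the identity on the cohomology; products of `2 dim X + 1`
homologically trivial self-correspondences of degree zero vanish; and `F^(i+1) CH^i(X) = 0` if this
holds for `Y` and the twist is not negative. -/
theorem result (X Y : 𝒱.Obj) (n : ℤ) (h : IsSummandOf C X Y n) (ρ : ℕ → C.A (Y.prod Y))
    (hρ : IsCK H Y ρ) (hD : MurreDFor H (squareCK ρ) Y.dim) :
    (∃ π : ℕ → C.A (X.prod X), IsCK H X π) ∧
      (∀ π : ℕ → C.A (X.prod X), IsCK H X π → MurreDFor H (squareCK π) X.dim) ∧
      MurreD H X ∧ MurreB0 H X ∧ MurreC H X ∧ UniqueUpToConjugation H X ∧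
      NilpotentOfIndex H X (2 * X.dim + 1) ∧ (0 ≤ n → MurreB1 H Y → MurreB1 H X) :=
  dominated_main h ρ hρ hD

end Pool.Agent.Results.MP_583472_ag.DominatedVarieties
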