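import Pool.Agent.Run7.h634.Mur.StrictMain

/-!
# Murre's conjecture (D): one decomposition and the middle-dimensional cycles of the squares
-/

set_option autoImplicit false

open CategoryTheory AlgebraicGeometry

universe u v w

namespace Pool.Agent.Results.MP_583472_ag.MiddleOfOneSquare

open Pool.Agent.H914 Pool.Agent.H914.VarClass Pool.Agent.H914.VarClass.Obj Pool.Agent.W492.BB
  Pool.Agent.W550.Corr Pool.Agent.TH133 Pool.Agent.Run7.H634.Mur

variable {k : Type u} [Field k] {𝒱 : VarClass k} {C : TheoryData.{u, v, 0} 𝒱 ℚ}
  [hC : IsChowProj C] {K : Type w} [Field K]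
  {H : WeilTheoryData.{u, v, w} C K} [hH : IsWeilProj H]

/-- (1) Let `π` be a Chow-Kunneth decomposition of `X`, `d = dim X`. Then (D) holds for the one group
`CH^d(X × X)` and the one decomposition `π^∨ × π` of `X × X` if and only if homologically trivial
self-correspondences of degree zero strictly lower the weights of `π`.

(2) If this is so for one `π`, then for all Chow-Kunneth decompositions of `X` and all codimensions
(D) and `F^0 CH^i(X) = CH^i(X)` hold, the filtration is independent of the decomposition, any two
decompositions are conjugate by a unit which is the identity on the cohomology, and any product of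
`2 d + 1` homologically trivial self-correspondences of degree zero is zero.

(3) All varieties have Chow-Kunneth decompositions and satisfy (D), in all codimensions and for all
decompositions, if and only if each `X` has one decomposition `π` such that (D) holds for the one
group `CH^d(X × X)` and the one decomposition `π^∨ × π`. -/
theorem result :
    (∀ (X : 𝒱.Obj) (π : ℕ → C.A (X.prod X)), IsCK H X π →
      (MurreDFor H (squareCK π) X.dim ↔ StrictFor H π)) ∧
    (∀ (X : 𝒱.Obj) (π : ℕ → C.A (X.prod X)), IsCK H X π → StrictFor H π →
      MurreD H X ∧ MurreB0 H X ∧ MurreC H X ∧ UniqueUpToConjugation H X ∧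
        NilpotentOfIndex H X (2 * X.dim + 1)) ∧
    ((∀ X : 𝒱.Obj, (∃ π, IsCK H X π) ∧ MurreD H X) ↔
      ∀ X : 𝒱.Obj, ∃ π, IsCK H X π ∧ MurreDFor H (squareCK π) X.dim) :=
  strict_main

end Pool.Agent.Results.MP_583472_ag.MiddleOfOneSquare
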