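import Pool.Agent.Run7.h634.Mur.Surf

/-!
# Murre's conjecture (D) in one codimension, for varieties whose motive comes from surfaces
-/

set_option autoImplicit false

open CategoryTheory AlgebraicGeometry

universe u v w

namespace Pool.Agent.Results.MP_583472_ag.OneStepInOneCodimension

open Pool.Agent.H914 Pool.Agent.H914.VarClass Pool.Agent.H914.VarClass.Obj Pool.Agent.W492.BB
  Pool.Agent.W550.Corr Pool.Agent.TH133 Pool.Agent.X308.S Pool.Agent.Run7.H634.Mur

variable {k : Type u} [Field k] {𝒱 : VarClass k} {C : TheoryData.{u, v, 0} 𝒱 ℚ}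
  [hC : IsChowProj C] {K : Type w} [Field K]
  {H : WeilTheoryData.{u, v, w} C K} [hH : IsWeilProj H]

/-- Let the motive of `X` be a direct summand of a finite sum of twists of motives of surfaces.

(1) `X` has a self-dual Chow-Kunneth decomposition whose filtration satisfies (D), (B) and
`F^3 = 0`.

(2) For every `l` and every `n` with `2 l - 2 dim X < n ≤ 2 l` the following are equivalent: (D) for
`CH^l(X)` and all Chow-Kunneth decompositions; the one step `F^n CH^l(X)` is the same for all of
them; all steps `F^m CH^l(X)` are; `F^(l+1) CH^l(X) = 0` for all of them; the phantoms of `X`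
(idempotent self-correspondences which are zero on the cohomology) act as zero on `CH^l(X)`.

(3) For `l < dim X` also `F^0 CH^l(X) = CH^l(X)` for all of them is equivalent to these. -/
theorem result (hS : SurfaceProperties H) (X : 𝒱.Obj) (hX : OfSurfaceType C X) :
    (∃ π : ℕ → C.A (X.prod X), IsCK H X π ∧ IsSelfDual C π ∧
      ∀ l : ℕ, (∀ x : C.A X, x ∈ ckFil C π l 1 ↔ C.Deg l x ∧ H.cl x = 0) ∧
        ckFil C π l 0 = C.gr X l ∧ ckFil C π l (l + 1) = ⊥ ∧ ckFil C π l 3 = ⊥) ∧
    (∀ l n : ℕ, 2 * l < n + 2 * X.dim → n ≤ 2 * l →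
      List.TFAE [MurreDIn H X l, StepIndep H X l n, ∀ m, StepIndep H X l m, MurreB1In H X l,
        PhantomsZeroOn H X l]) ∧
    (∀ l : ℕ, l < X.dim → (MurreB0In H X l ↔ MurreDIn H X l)) :=
  ⟨(surface_one_step hS X hX).1, (surface_one_step hS X hX).2.1, (surface_one_step hS X hX).2.2.1⟩

end Pool.Agent.Results.MP_583472_ag.OneStepInOneCodimension
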